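import Mathlib

set_option autoImplicit false
set_option maxSynthPendingDepth 3

namespace Pool.Agent.Results.MP_26ecb3_co.Counter

open Finset

/-- `[0,s]_± A`. -/
def sumset {G : Type} [AddCommGroup G] (s : ℕ) (A : Finset G) : Set G :=
  {g | ∃ l : G → ℤ, ∑ a ∈ A, |l a| ≤ s ∧ g = ∑ a ∈ A, l a • a}

noncomputable def phi (G : Type) [AddCommGroup G] (s : ℕ) : ℕ :=
  sInf {n | ∃ A : Finset G, A.card = n ∧ sumset s A = Set.univ}

def L (s k : ℕ) : Prop :=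
  (s = 2 ∧ k ∈ ({1, 2} : Set ℕ)) ∨ (s = 3 ∧ k ∈ ({1, 2, 3, 4} : Set ℕ)) ∨
    (s = 4 ∧ k ∈ ({1, 2, 3, 4, 5, 6, 8} : Set ℕ)) ∨ (5 ≤ s ∧ k ≤ 3 * s - 4)

theorem result : ∃ s k : ℕ, 0 < s ∧ 0 < k ∧ ¬ L s k ∧ phi (ZMod 2 × ZMod (2 * k)) s = 2 := by
  refine ⟨5, 12, by norm_num, by norm_num, by simp [L], IsLeast.csInf_eq ⟨⟨{(0, 3), (1, 2)},
    by decide, Set.eq_univ_of_forall fun g => ?_⟩, ?_⟩⟩
  · obtain ⟨i, -, j, -, h1, h2⟩ := (by decide +kernel : ∀ g : ZMod 2 × ZMod (2 * 12), ∃ i ∈ Icc (-5 : ℤ) 5,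
      ∃ j ∈ Icc (-5 : ℤ) 5, |i| + |j| ≤ 5 ∧ g = i • (0, 3) + j • (1, 2)) g
    refine ⟨fun a => if a = (0, 3) then i else j, ?_⟩
    rw [sum_pair (by decide), sum_pair (by decide)]
    exact ⟨h1, h2⟩
  · rintro _ ⟨A, rfl, h⟩
    by_contra hc
    obtain ⟨a, ha⟩ := card_le_one_iff_subset_singleton.1 (Nat.lt_succ_iff.1 (not_le.1 hc))
    have h1 : ∀ g, ∃ i : ℤ, g = i • a := fun g => by
      obtain ⟨l, -, h2⟩ : g ∈ sumset 5 A := h ▸ Set.mem_univ g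
      obtain rfl | rfl := subset_singleton_iff.1 ha
      exacts [⟨0, by simpa using h2⟩, ⟨l a, by simpa using h2⟩]
    have : IsAddCyclic (ZMod 2 × ZMod (2 * 12)) := ⟨a, fun g => (h1 g).imp fun _ => Eq.symm⟩
    have h2 := IsAddCyclic.exponent_eq_card (α := ZMod 2 × ZMod (2 * 12))
    rw [AddMonoid.exponent_prod, ZMod.exponent, ZMod.exponent] at h2
    simp at h2
    exact absurd h2 (by decide)

end Pool.Agent.Results.MP_26ecb3_co.Counter
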